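import Pool.Agent.W668.Uni.Stmts
import Pool.Agent.W585.Param

/-! Basic evaluation lemmas for the operators of the unicorn project. -/

set_option autoImplicit false

open Set MeasureTheory
open scoped ContDiff Topology

namespace Pool.Agent.W238.Uni

open Pool.Agent.W668.Uni

noncomputable section

theorem evX_mkX {u : ℝ → ℝ} (hu : Continuous u) {x : ℝ} (h0 : 0 ≤ x) (h1 : x ≤ 1) :
    evX (mkX u) x = u x := by
  have hc : Continuous (fun x : I1 => u x) := hu.comp continuous_subtype_val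
  unfold evX mkX
  rw [dif_pos hc]
  rw [projIcc_of_mem zero_le_one (⟨h0, h1⟩ : x ∈ Icc (0 : ℝ) 1)]
  rfl

theorem evX_sub (f g : X) (x : ℝ) : evX (f - g) x = evX f x - evX g x := rfl
theorem evX_add (f g : X) (x : ℝ) : evX (f + g) x = evX f x + evX g x := rfl
theorem evX_mul (f g : X) (x : ℝ) : evX (f * g) x = evX f x * evX g x := rfl
theorem evX_smul (r : ℝ) (f : X) (x : ℝ) : evX (r • f) x = r * evX f x := rfl
theorem evX_zero (x : ℝ) : evX (0 : X) x = 0 := rfl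
theorem evY_sub (f g : Y) (y t : ℝ) : evY (f - g) y t = evY f y t - evY g y t := rfl
theorem evY_add (f g : Y) (y t : ℝ) : evY (f + g) y t = evY f y t + evY g y t := rfl
theorem evY_mul (f g : Y) (y t : ℝ) : evY (f * g) y t = evY f y t * evY g y t := rfl
theorem evY_pow (f : Y) (n : ℕ) (y t : ℝ) : evY (f ^ n) y t = evY f y t ^ n := rfl
theorem evY_smul (r : ℝ) (f : Y) (y t : ℝ) : evY (r • f) y t = r * evY f y t := rfl

theorem evY_w (y : ℝ) {t : ℝ} (h0 : 0 ≤ t) (h1 : t ≤ Real.pi / 2) :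
    evY w y t = Real.sin t := by
  unfold evY w
  have h : projIcc (0 : ℝ) (Real.pi / 2) Th_le t = ⟨t, ⟨h0, h1⟩⟩ :=
    projIcc_of_mem Th_le (⟨h0, h1⟩ : t ∈ Icc (0 : ℝ) (Real.pi / 2))
  rw [h]
  rfl

theorem evY_c (y : ℝ) {t : ℝ} (h0 : 0 ≤ t) (h1 : t ≤ Real.pi / 2) :
    evY c y t = Real.cos t := by
  unfold evY c
  have h : projIcc (0 : ℝ) (Real.pi / 2) Th_le t = ⟨t, ⟨h0, h1⟩⟩ :=
    projIcc_of_mem Th_le (⟨h0, h1⟩ : t ∈ Icc (0 : ℝ) (Real.pi / 2))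
  rw [h]
  rfl

theorem ext_evX {f g : X} (h : ∀ x, 0 ≤ x → x ≤ 1 → evX f x = evX g x) : f = g := by
  ext z
  have h1 := h z z.2.1 z.2.2
  unfold evX at h1
  rwa [projIcc_val] at h1

theorem ext_evY {f g : Y}
    (h : ∀ y t, 0 ≤ y → y ≤ 1 → 0 ≤ t → t ≤ Real.pi / 2 → evY f y t = evY g y t) : f = g := by
  ext z
  obtain ⟨y, t⟩ := z
  have h1 := h y t y.2.1 y.2.2 t.2.1 t.2.2
  unfold evY at h1
  rwa [projIcc_val, projIcc_val] at h1

theorem evX_τX (a : ℝ) (f : X) {x : ℝ} (h0 : 0 ≤ x) (h1 : x ≤ 1) :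
    evX (τX a f) x = evX f (Real.exp (-|a|) * x) := by
  have e1 : projIcc (0 : ℝ) 1 zero_le_one x = ⟨x, ⟨h0, h1⟩⟩ :=
    projIcc_of_mem zero_le_one (⟨h0, h1⟩ : x ∈ Icc (0 : ℝ) 1)
  have e2 : projIcc (0 : ℝ) 1 zero_le_one (Real.exp (-|a|) * x) = dil a ⟨x, ⟨h0, h1⟩⟩ := by
    have := projIcc_val (zero_le_one : (0 : ℝ) ≤ 1) (dil a ⟨x, ⟨h0, h1⟩⟩)
    exact this
  unfold evX
  rw [e1, e2]
  rfl

theorem evY_τY (a : ℝ) (h : Y) {y : ℝ} (t : ℝ) (h0 : 0 ≤ y) (h1 : y ≤ 1) :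
    evY (τY a h) y t = evY h (Real.exp (-|a|) * y) t := by
  have e1 : projIcc (0 : ℝ) 1 zero_le_one y = ⟨y, ⟨h0, h1⟩⟩ :=
    projIcc_of_mem zero_le_one (⟨h0, h1⟩ : y ∈ Icc (0 : ℝ) 1)
  have e2 : projIcc (0 : ℝ) 1 zero_le_one (Real.exp (-|a|) * y) = dil a ⟨y, ⟨h0, h1⟩⟩ := by
    have := projIcc_val (zero_le_one : (0 : ℝ) ≤ 1) (dil a ⟨y, ⟨h0, h1⟩⟩)
    exact this
  unfold evY
  rw [e1, e2]
  rfl

theorem exp_mem (a : ℝ) {x : ℝ} (h0 : 0 ≤ x) (h1 : x ≤ 1) :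
    0 ≤ Real.exp (-|a|) * x ∧ Real.exp (-|a|) * x ≤ 1 := by
  have h2 : Real.exp (-|a|) ≤ 1 := Real.exp_le_one_iff.2 (by simp)
  have h3 := Real.exp_pos (-|a|)
  constructor
  · positivity
  · nlinarith

theorem τY_mul (a : ℝ) (f g : Y) : τY a (f * g) = τY a f * τY a g := rfl

/-- integrals over `[0, π/2]` of equal functions -/
theorem int_congr {u v : ℝ → ℝ} (h : ∀ t, 0 ≤ t → t ≤ Real.pi / 2 → u t = v t) :
    ∫ t in (0 : ℝ)..(Real.pi / 2), u t = ∫ t in (0 : ℝ)..(Real.pi / 2), v t := by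
  refine intervalIntegral.integral_congr fun t ht => ?_
  rw [uIcc_of_le Th_le] at ht
  exact h t ht.1 ht.2

theorem int_congr1 {u v : ℝ → ℝ} (h : ∀ t, 0 ≤ t → t ≤ 1 → u t = v t) :
    ∫ t in (0 : ℝ)..1, u t = ∫ t in (0 : ℝ)..1, v t := by
  refine intervalIntegral.integral_congr fun t ht => ?_
  rw [uIcc_of_le zero_le_one] at ht
  exact h t ht.1 ht.2

theorem cos_nonneg' {t : ℝ} (h0 : 0 ≤ t) (h1 : t ≤ Real.pi / 2) : 0 ≤ Real.cos t :=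
  Real.cos_nonneg_of_neg_pi_div_two_le_of_le (by linarith [Real.pi_pos]) h1

theorem sin_nonneg' {t : ℝ} (h0 : 0 ≤ t) (h1 : t ≤ Real.pi / 2) : 0 ≤ Real.sin t :=
  Real.sin_nonneg_of_nonneg_of_le_pi h0 (by linarith [Real.pi_pos])

theorem P_ev (O : Ops) (g : X) {y : ℝ} (h0 : 0 ≤ y) (h1 : y ≤ 1) :
    evX (O.P g) y = ∫ s in (0 : ℝ)..(Real.pi / 2),
      4 * Real.sin s ^ 2 * Real.cos s ^ 2 * evX g (y * Real.cos s) := by
  unfold Ops.P
  rw [O.W_ev]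
  refine int_congr fun s hs0 hs1 => ?_
  rw [evY_smul, evY_mul, evY_pow, evY_c y hs0 hs1, O.lift_ev g y s h0 h1 hs0 hs1]
  ring

theorem P_sub (O : Ops) (f g : X) : O.P (f - g) = O.P f - O.P g := by
  unfold Ops.P
  rw [map_sub, mul_sub, smul_sub, map_sub]

theorem W_τ (O : Ops) (a : ℝ) (h : Y) : O.W (τY a h) = τX a (O.W h) := by
  refine ext_evX fun x h0 h1 => ?_
  rw [evX_τX a _ h0 h1, O.W_ev, O.W_ev]
  refine int_congr fun s hs0 hs1 => ?_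
  rw [evY_τY a h s h0 h1]

theorem lift_τ (O : Ops) (a : ℝ) (f : X) : O.lift (τX a f) = τY a (O.lift f) := by
  refine ext_evY fun y t hy0 hy1 ht0 ht1 => ?_
  have hc := cos_nonneg' ht0 ht1
  have hc1 := Real.cos_le_one t
  obtain ⟨h2, h3⟩ := exp_mem a hy0 hy1
  rw [O.lift_ev _ y t hy0 hy1 ht0 ht1, evX_τX a f (by positivity) (by nlinarith),
    evY_τY a _ t hy0 hy1, O.lift_ev _ _ t h2 h3 ht0 ht1]
  congr 1
  ring

theorem P_τ (O : Ops) (a : ℝ) (g : X) : O.P (τX a g) = τX a (O.P g) := by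
  unfold Ops.P
  rw [← W_τ, lift_τ]
  rfl

end

end Pool.Agent.W238.Uni
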