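import Pool.Agent.W238.Uni.Basic

/-! Scaling of the period map at the linear function `x ↦ x`. -/

set_option autoImplicit false

open Set MeasureTheory
open scoped ContDiff Topology

namespace Pool.Agent.W238.Uni

open Pool.Agent.W668.Uni

noncomputable section

/-- the identity function in `X` -/
def idX : X := mkX (fun x => x)

theorem evX_idX {x : ℝ} (h0 : 0 ≤ x) (h1 : x ≤ 1) : evX idX x = x :=
  evX_mkX continuous_id h0 h1

theorem norm_idX : ‖idX‖ ≤ 1 := by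
  refine (ContinuousMap.norm_le _ zero_le_one).2 fun z => ?_
  have h := evX_idX z.2.1 z.2.2
  unfold evX at h
  rw [projIcc_val] at h
  rw [h, Real.norm_eq_abs, abs_of_nonneg z.2.1]
  exact z.2.2

theorem norm_lift_idX (O : Ops) : ‖O.lift idX‖ ≤ 1 := (O.lift_norm idX).trans norm_idX

theorem lift_idX (O : Ops) {y t : ℝ} (h0 : 0 ≤ y) (h1 : y ≤ 1) (ht0 : 0 ≤ t)
    (ht1 : t ≤ Real.pi / 2) : evY (O.lift idX) y t = y * Real.cos t := by
  have hc := cos_nonneg' ht0 ht1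
  have hc1 := Real.cos_le_one t
  rw [O.lift_ev _ y t h0 h1 ht0 ht1, evX_idX (by positivity) (by nlinarith)]

theorem τY_lift_idX (O : Ops) (a : ℝ) :
    τY a (O.lift idX) = Real.exp (-|a|) • O.lift idX := by
  refine ext_evY fun y t hy0 hy1 ht0 ht1 => ?_
  obtain ⟨h2, h3⟩ := exp_mem a hy0 hy1
  rw [evY_τY a _ t hy0 hy1, lift_idX O h2 h3 ht0 ht1, evY_smul, lift_idX O hy0 hy1 ht0 ht1]
  ring

variable {O : Ops} {M e₀ : ℝ} {η : ℝ × Y → Y}

theorem eta_scale (hη : EtaSol O M e₀ η) {ε r : ℝ} (hr0 : 0 ≤ r) (hr1 : r ≤ 1) (hε : |ε| < e₀)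
    {F : Y} (hF : ‖F‖ < M) : η (ε, r • F) = r • η (ε * r, F) := by
  have hεr : |ε * r| < e₀ := by
    rw [abs_mul, abs_of_nonneg hr0]
    calc |ε| * r ≤ |ε| * 1 := mul_le_mul_of_nonneg_left hr1 (abs_nonneg _)
      _ < e₀ := by rw [mul_one]; exact hε
  have hp : ((ε * r, F) : ℝ × Y) ∈ dom e₀ M := ⟨hεr, hF⟩
  have hq : ((ε, r • F) : ℝ × Y) ∈ dom e₀ M := by
    refine ⟨hε, ?_⟩
    show ‖r • F‖ < M
    rw [norm_smul, Real.norm_eq_abs, abs_of_nonneg hr0]
    calc r * ‖F‖ ≤ 1 * ‖F‖ := mul_le_mul_of_nonneg_right hr1 (norm_nonneg _)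
      _ < M := by rw [one_mul]; exact hF
  refine (hη.uniq _ hq (r • η (ε * r, F)) ?_ ?_).symm
  · have hb := hη.bound _ hp
    have : |ε| * ‖r • η (ε * r, F)‖ = |ε * r| * ‖η (ε * r, F)‖ := by
      rw [norm_smul, abs_mul, Real.norm_eq_abs]; ring
    show |ε| * ‖r • η (ε * r, F)‖ ≤ 1 / 2
    rw [this]
    have hb' : |ε * r| * ‖η (ε * r, F)‖ ≤ 1 / 4 := hb
    linarith
  · have he := hη.eqn _ hp
    unfold EtaEq at he ⊢
    have he' : η (ε * r, F) = -O.S3 (F * (1 + (ε * r) • (w * η (ε * r, F))))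
      - ((ε * r) / 2) • (w * η (ε * r, F) ^ 2) := he
    show r • η (ε * r, F) = -O.S3 ((r • F) * (1 + ε • (w * (r • η (ε * r, F)))))
      - (ε / 2) • (w * (r • η (ε * r, F)) ^ 2)
    set h := η (ε * r, F) with hh
    have e1 : (r • F) * (1 + ε • (w * (r • h))) = r • (F * (1 + (ε * r) • (w * h))) := by
      rw [mul_smul_comm, smul_smul, smul_mul_assoc]
    have e2 : (ε / 2) • (w * (r • h) ^ 2) = r • (((ε * r) / 2) • (w * h ^ 2)) := by
      rw [smul_pow, mul_smul_comm, smul_smul, smul_smul]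
      congr 1
      ring
    rw [e1, e2, map_smul, ← smul_neg, ← smul_sub, ← he']

theorem kapE_scale (ε r : ℝ) (u v : Y) :
    kapE ε (r • u) (r • v) = r • kapE (ε * r) u v := by
  have x1 : ∀ (e : ℝ) (h : Y), xi e (r • h) = r • xi (e * r) h := by
    intro e h
    unfold xi
    rw [smul_pow, mul_smul_comm]
    module
  have d1 : ∀ (e : ℝ) (h : Y), dd e (r • h) = dd (e * r) h := by
    intro e h
    unfold dd
    rw [x1, mul_smul_comm, smul_smul]
  have i1 : ∀ (e : ℝ) (h : Y), di e (r • h) = di (e * r) h := by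
    intro e h
    unfold di
    rw [d1]
  unfold kapE
  rw [x1, x1, i1, i1]
  have : -(ε * r) = -ε * r := by ring
  rw [this, ← smul_add, mul_smul_comm, smul_mul_assoc, smul_mul_assoc, smul_neg]

theorem kE_scale (hη : EtaSol O M e₀ η) {ε r : ℝ} (hr0 : 0 ≤ r) (hr1 : r ≤ 1) (hε : |ε| < e₀)
    {F : Y} (hF : ‖F‖ < M) : kE η (ε, r • F) = r • kE η (ε * r, F) := by
  unfold kE
  show kapE ε (η (ε, r • F)) (η (-ε, r • F))
    = r • kapE (ε * r) (η (ε * r, F)) (η (-(ε * r), F))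
  rw [eta_scale hη hr0 hr1 hε hF, eta_scale hη hr0 hr1 (by rwa [abs_neg]) hF, kapE_scale]
  have : -(ε * r) = -ε * r := by ring
  rw [this]

theorem That_scale (hη : EtaSol O M e₀ η) {ε r : ℝ} (hr0 : 0 ≤ r) (hr1 : r ≤ 1) (hε : |ε| < e₀)
    {F : Y} (hF : ‖F‖ < M) : That O η (ε, r • F) = (r ^ 2) • That O η (ε * r, F) := by
  unfold That
  show O.W ((r • F) * kE η (ε, r • F)) = r ^ 2 • O.W (F * kE η (ε * r, F))
  rw [kE_scale hη hr0 hr1 hε hF, smul_mul_assoc, mul_smul_comm, smul_smul, map_smul]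
  congr 1
  ring

theorem That_τ (hsmo : P_smo) (hη : EtaSol O M e₀ η) {ε : ℝ} (hε : |ε| < e₀)
    {F : Y} (hF : ‖F‖ < M) (a : ℝ) : That O η (ε, τY a F) = τX a (That O η (ε, F)) := by
  obtain ⟨-, -, h3⟩ := hsmo O M e₀ η hη
  have h4 := (h3 (ε, F) ⟨hε, hF⟩ a).2.1
  unfold That
  show O.W (τY a F * kE η (ε, τY a F)) = τX a (O.W (F * kE η (ε, F)))
  have h5 : kE η (ε, τY a F) = τY a (kE η (ε, F)) := h4
  rw [h5, ← τY_mul, W_τ]

/-- `z(s)` -/
def zf (O : Ops) (η : ℝ × Y → Y) (s : ℝ) : ℝ := evX (That O η (s, O.lift idX)) 1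

theorem That_idX (hsmo : P_smo) (hη : EtaSol O M e₀ η) (hM : 1 < M) {ε : ℝ} (hε : |ε| < e₀)
    {y : ℝ} (h0 : 0 ≤ y) (h1 : y ≤ 1) :
    evX (That O η (ε, O.lift idX)) y = y ^ 2 * zf O η (ε * y) := by
  have hF : ‖O.lift idX‖ < M := (norm_lift_idX O).trans_lt hM
  rcases h0.eq_or_lt with rfl | hy
  · unfold That
    show evX (O.W (O.lift idX * kE η (ε, O.lift idX))) 0 = _
    rw [O.W_ev]
    have : ∫ s in (0 : ℝ)..(Real.pi / 2), Real.sin s ^ 2 *
        evY (O.lift idX * kE η (ε, O.lift idX)) 0 s = ∫ s in (0 : ℝ)..(Real.pi / 2), (0 : ℝ) := by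
      refine int_congr fun s hs0 hs1 => ?_
      rw [evY_mul, lift_idX O le_rfl zero_le_one hs0 hs1]
      ring
    rw [this]
    simp
  · set a : ℝ := Real.log y with ha
    have hlog : a ≤ 0 := Real.log_nonpos hy.le h1
    have hexp : Real.exp (-|a|) = y := by
      rw [abs_of_nonpos hlog, neg_neg, ha, Real.exp_log hy]
    have e1 := That_τ hsmo hη hε hF a
    rw [τY_lift_idX, hexp, That_scale hη hy.le h1 hε hF] at e1
    have e2 := congrArg (fun g : X => evX g 1) e1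
    rw [evX_smul, evX_τX a _ zero_le_one le_rfl, hexp, mul_one] at e2
    rw [← e2]
    rfl

end

end Pool.Agent.W238.Uni
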