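import Pool.Agent.W238.Uni.Scale

/-! UNI-WFN: the right-hand side function. -/

set_option autoImplicit false

open Set MeasureTheory
open scoped ContDiff Topology

namespace Pool.Agent.W238.Uni

open Pool.Agent.W668.Uni

noncomputable section

variable {O : Ops} {M e₀ : ℝ} {η : ℝ × Y → Y}

theorem evX_b_idX (O : Ops) {x : ℝ} (h0 : 0 ≤ x) (h1 : x ≤ 1) : evX (O.b idX) x = x / 3 := by
  rw [O.b_ev _ x h0 h1]
  have : ∫ u in (0 : ℝ)..1, u * evX idX (x * u) = ∫ u in (0 : ℝ)..1, x * u ^ 2 := by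
    refine int_congr1 fun u hu0 hu1 => ?_
    rw [evX_idX (by positivity) (by nlinarith)]
    ring
  rw [this, intervalIntegral.integral_const_mul, integral_pow]
  norm_num
  ring

theorem zf_zero (hlead : P_lead) (hη : EtaSol O M e₀ η) (hM : 1 < M)
    {χ C b₀ f₀ : ℝ → ℝ} (h0 : F0Data χ C b₀ f₀) : zf O η 0 = Real.pi / 24 := by
  unfold zf
  rw [(hlead O M e₀ η hη idX (norm_idX.trans_lt hM)).1, P_ev O _ zero_le_one le_rfl]
  have e1 := h0.main (1 / 4) (by norm_num) (by norm_num)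
  rw [h0.C_eq, h0.χ_zero _ le_rfl] at e1
  have e2 : (∫ t in (0 : ℝ)..(Real.pi / 2), Real.sin t ^ 2 * Real.cos t ^ 2 *
      (f₀ (1 / 4 * Real.cos t) * b₀ (1 / 4 * Real.cos t)))
      = (1 / 48 : ℝ) * ∫ t in (0 : ℝ)..(Real.pi / 2), Real.sin t ^ 2 * Real.cos t ^ 4 := by
    rw [← intervalIntegral.integral_const_mul]
    refine int_congr fun t ht0 ht1 => ?_
    have hc1 := Real.cos_le_one t
    rw [h0.b_near _ (by linarith), h0.f_near _ (by linarith)]
    ring
  have e3 : (∫ s in (0 : ℝ)..(Real.pi / 2), 4 * Real.sin s ^ 2 * Real.cos s ^ 2 *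
      evX (idX * O.b idX) (1 * Real.cos s))
      = (4 / 3 : ℝ) * ∫ t in (0 : ℝ)..(Real.pi / 2), Real.sin t ^ 2 * Real.cos t ^ 4 := by
    rw [← intervalIntegral.integral_const_mul]
    refine int_congr fun t ht0 ht1 => ?_
    have hc1 := Real.cos_le_one t
    have hc := cos_nonneg' ht0 ht1
    rw [evX_mul, evX_b_idX O (by rwa [one_mul]) (by rwa [one_mul]),
      evX_idX (by rwa [one_mul]) (by rwa [one_mul])]
    ring
  rw [e3]
  rw [e2] at e1
  linarith

theorem zf_smooth (hsmo : P_smo) (hη : EtaSol O M e₀ η) (hM : 1 < M) :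
    ContDiffOn ℝ ∞ (zf O η) {s | |s| < e₀} := by
  obtain ⟨h1, -, -⟩ := hsmo O M e₀ η hη
  have hF : ‖O.lift idX‖ < M := (norm_lift_idX O).trans_lt hM
  have h2 : ContDiffOn ℝ ∞ (fun p : ℝ × Y => That O η p) (dom e₀ M) := by
    unfold That
    exact O.W.contDiff.comp_contDiffOn (contDiff_snd.contDiffOn.mul h1)
  have h3 : ContDiffOn ℝ ∞ (fun s : ℝ => That O η (s, O.lift idX)) {s | |s| < e₀} := by
    refine h2.comp (contDiff_id.prodMk contDiff_const).contDiffOn ?_
    intro s hs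
    exact ⟨hs, hF⟩
  exact (ContinuousMap.evalCLM ℝ (Set.projIcc (0 : ℝ) 1 zero_le_one 1)).contDiff.comp_contDiffOn h3

theorem exists_ext {z : ℝ → ℝ} {e : ℝ} (he : 0 < e) (hz : ContDiffOn ℝ ∞ z {s | |s| < e}) :
    ∃ zz : ℝ → ℝ, ContDiff ℝ ∞ zz ∧ ∀ s, |s| < e / 2 → zz s = z s := by
  let b : ContDiffBump (0 : ℝ) := ⟨e / 2, 3 * e / 4, by linarith, by linarith⟩
  refine ⟨fun s => b s * z s, ?_, ?_⟩
  · rw [contDiff_iff_contDiffAt]
    intro s
    rcases lt_or_ge |s| e with hs | hs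
    · have ho : {s : ℝ | |s| < e} ∈ 𝓝 s := (isOpen_lt continuous_abs continuous_const).mem_nhds hs
      exact b.contDiffAt.mul (hz.contDiffAt ho)
    · have ho : {s : ℝ | 3 * e / 4 < |s|} ∈ 𝓝 s :=
        (isOpen_lt continuous_const continuous_abs).mem_nhds (by
          show 3 * e / 4 < |s|
          linarith)
      have : (fun s => b s * z s) =ᶠ[𝓝 s] fun _ => (0 : ℝ) := by
        filter_upwards [ho] with t ht
        have : b t = 0 := b.zero_of_le_dist (by
          rw [dist_zero_right, Real.norm_eq_abs]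
          exact le_of_lt ht)
        rw [this, zero_mul]
      exact contDiffAt_const.congr_of_eventuallyEq this
  · intro s hs
    have : b s = 1 := b.one_of_mem_closedBall (by
      rw [mem_closedBall_zero_iff, Real.norm_eq_abs]
      exact hs.le)
    show b s * z s = z s
    rw [this, one_mul]

/-- `D = y ∂_y` on functions of `(ε, y)` -/
def Dop (V : ℝ × ℝ → ℝ) : ℝ × ℝ → ℝ := fun p => p.2 * fderiv ℝ V p (0, 1)

theorem Dop_smooth {V : ℝ × ℝ → ℝ} (hV : ContDiff ℝ ∞ V) : ContDiff ℝ ∞ (Dop V) := by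
  unfold Dop
  exact contDiff_snd.mul ((hV.fderiv_right (m := ∞) (by simp)).clm_apply contDiff_const)

theorem Dop_deriv {V : ℝ × ℝ → ℝ} (hV : ContDiff ℝ ∞ V) (ε y s : ℝ) :
    HasDerivAt (fun s => V (ε, y * s)) (y * fderiv ℝ V (ε, y * s) (0, 1)) s := by
  have h1 : HasFDerivAt V (fderiv ℝ V (ε, y * s)) (ε, y * s) :=
    (hV.differentiable (by simp) _).hasFDerivAt
  have h2 : HasDerivAt (fun s : ℝ => ((ε, y * s) : ℝ × ℝ)) (0, y) s := by
    have h3 : HasDerivAt (fun s : ℝ => y * s) y s := by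
      simpa using (hasDerivAt_id s).const_mul y
    exact (hasDerivAt_const s ε).prodMk h3
  have h4 := h1.comp_hasDerivAt s h2
  have e : fderiv ℝ V (ε, y * s) (0, y) = y * fderiv ℝ V (ε, y * s) (0, 1) := by
    have : ((0, y) : ℝ × ℝ) = y • ((0, 1) : ℝ × ℝ) := by simp
    rw [this, map_smul, smul_eq_mul]
  rw [e] at h4
  exact h4

theorem int_Dop {V : ℝ × ℝ → ℝ} (hV : ContDiff ℝ ∞ V) (n : ℕ) (ε y : ℝ) :
    ∫ s in (0 : ℝ)..1, s ^ n * (Dop V (ε, y * s) + (n + 1 : ℝ) * V (ε, y * s)) = V (ε, y) := by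
  have hd : ∀ s ∈ uIcc (0 : ℝ) 1, HasDerivAt (fun s => s ^ (n + 1) * V (ε, y * s))
      (s ^ n * (Dop V (ε, y * s) + (n + 1 : ℝ) * V (ε, y * s))) s := by
    intro s _
    have h1 := (hasDerivAt_pow (n + 1) s).mul (Dop_deriv hV ε y s)
    refine h1.congr_deriv ?_
    unfold Dop
    push_cast
    ring
  have hc : Continuous (fun s : ℝ =>
      s ^ n * (Dop V (ε, y * s) + (n + 1 : ℝ) * V (ε, y * s))) := by
    have h1 := (Dop_smooth hV).continuous
    have h2 := hV.continuous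
    fun_prop
  rw [intervalIntegral.integral_eq_sub_of_hasDerivAt hd (hc.intervalIntegrable _ _)]
  simp

/-- `(D+4)(D+3)` -/
def Gop (V : ℝ × ℝ → ℝ) : ℝ × ℝ → ℝ := fun p => Dop (Dop V) p + 7 * Dop V p + 12 * V p

theorem Gop_smooth {V : ℝ × ℝ → ℝ} (hV : ContDiff ℝ ∞ V) : ContDiff ℝ ∞ (Gop V) := by
  unfold Gop
  have h1 := Dop_smooth hV
  have h2 := Dop_smooth h1
  exact (h2.add (contDiff_const.mul h1)).add (contDiff_const.mul hV)

theorem Dop_add_mul {V : ℝ × ℝ → ℝ} (hV : ContDiff ℝ ∞ V) (k : ℝ) (p : ℝ × ℝ) :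
    Dop (fun q => Dop V q + k * V q) p = Dop (Dop V) p + k * Dop V p := by
  have h1 := ((Dop_smooth hV).differentiable (by simp)) p
  have h2 := (hV.differentiable (by simp)) p
  unfold Dop at h1 ⊢
  have e : fderiv ℝ (fun q : ℝ × ℝ => (fun p : ℝ × ℝ => p.2 * fderiv ℝ V p (0, 1)) q + k * V q) p
      = fderiv ℝ (fun p : ℝ × ℝ => p.2 * fderiv ℝ V p (0, 1)) p + k • fderiv ℝ V p := by
    have h3 := h1.hasFDerivAt.add (h2.hasFDerivAt.const_mul k)
    exact h3.fderiv
  have e' := congrArg (fun L : ℝ × ℝ →L[ℝ] ℝ => L (0, 1)) e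
  simp only [add_apply, smul_apply, smul_eq_mul] at e'
  rw [e']
  ring

theorem int_Gop {V : ℝ × ℝ → ℝ} (hV : ContDiff ℝ ∞ V) (ε y : ℝ) :
    ∫ s in (0 : ℝ)..1, (s ^ 2 - s ^ 3) * Gop V (ε, y * s) = V (ε, y) := by
  have h1 := Dop_smooth hV
  have hV3 : ContDiff ℝ ∞ (fun q => Dop V q + 3 * V q) := h1.add (contDiff_const.mul hV)
  have hV4 : ContDiff ℝ ∞ (fun q => Dop V q + 4 * V q) := h1.add (contDiff_const.mul hV)
  have i3 := int_Dop hV4 2 ε y
  have i4 := int_Dop hV3 3 ε y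
  have e3 : ∀ s : ℝ, s ^ 2 * (Dop (fun q => Dop V q + 4 * V q) (ε, y * s)
      + ((2 : ℕ) + 1 : ℝ) * (Dop V (ε, y * s) + 4 * V (ε, y * s)))
      = s ^ 2 * Gop V (ε, y * s) := by
    intro s
    rw [Dop_add_mul hV 4]
    unfold Gop
    push_cast
    ring
  have e4 : ∀ s : ℝ, s ^ 3 * (Dop (fun q => Dop V q + 3 * V q) (ε, y * s)
      + ((3 : ℕ) + 1 : ℝ) * (Dop V (ε, y * s) + 3 * V (ε, y * s)))
      = s ^ 3 * Gop V (ε, y * s) := by
    intro s
    rw [Dop_add_mul hV 3]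
    unfold Gop
    push_cast
    ring
  have i3' : ∫ s in (0 : ℝ)..1, s ^ 2 * Gop V (ε, y * s) = Dop V (ε, y) + 4 * V (ε, y) := by
    rw [← i3]
    exact intervalIntegral.integral_congr fun s _ => (e3 s).symm
  have i4' : ∫ s in (0 : ℝ)..1, s ^ 3 * Gop V (ε, y * s) = Dop V (ε, y) + 3 * V (ε, y) := by
    rw [← i4]
    exact intervalIntegral.integral_congr fun s _ => (e4 s).symm
  have hG := (Gop_smooth hV).continuous
  have c3 : Continuous (fun s : ℝ => s ^ 2 * Gop V (ε, y * s)) := by fun_prop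
  have c4 : Continuous (fun s : ℝ => s ^ 3 * Gop V (ε, y * s)) := by fun_prop
  have : ∫ s in (0 : ℝ)..1, (s ^ 2 - s ^ 3) * Gop V (ε, y * s)
      = (∫ s in (0 : ℝ)..1, s ^ 2 * Gop V (ε, y * s))
        - ∫ s in (0 : ℝ)..1, s ^ 3 * Gop V (ε, y * s) := by
    rw [← intervalIntegral.integral_sub (c3.intervalIntegrable _ _) (c4.intervalIntegrable _ _)]
    refine intervalIntegral.integral_congr fun s _ => ?_
    show (s ^ 2 - s ^ 3) * Gop V (ε, y * s) = s ^ 2 * Gop V (ε, y * s) - s ^ 3 * Gop V (ε, y * s)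
    ring
  rw [this, i3', i4']
  ring

/-- `v(ε, x) = (1/2π) ∫ sin³ p G(ε, x sin p) dp` -/
def vf (V : ℝ × ℝ → ℝ) (ε x : ℝ) : ℝ :=
  1 / (2 * Real.pi) * ∫ p in (0 : ℝ)..(Real.pi / 2), Real.sin p ^ 3 * Gop V (ε, x * Real.sin p)

theorem vf_smooth {V : ℝ × ℝ → ℝ} (hV : ContDiff ℝ ∞ V) :
    ContDiff ℝ ∞ (fun p : ℝ × ℝ => vf V p.1 p.2) := by
  unfold vf
  refine contDiff_const.mul ?_
  refine Pool.Agent.W585.contDiff_param (E := ℝ × ℝ)
    (F := fun x p => Real.sin p ^ 3 * Gop V (x.1, x.2 * Real.sin p)) ?_ 0 (Real.pi / 2)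
  have hs : ContDiff ℝ ∞ (fun p : (ℝ × ℝ) × ℝ => Real.sin p.2) :=
    Real.contDiff_sin.comp contDiff_snd
  have hG := Gop_smooth hV
  refine (hs.pow 3).mul (hG.comp ?_)
  exact (contDiff_fst.comp contDiff_fst).prodMk ((contDiff_snd.comp contDiff_fst).mul hs)

theorem vf_cont {V : ℝ × ℝ → ℝ} (hV : ContDiff ℝ ∞ V) (ε : ℝ) : Continuous (vf V ε) := by
  have h1 := (vf_smooth hV).continuous
  exact h1.comp (Continuous.prodMk_right ε)

theorem P_vf (hinj : P_inj) (O : Ops) {V : ℝ × ℝ → ℝ} (hV : ContDiff ℝ ∞ V) (ε : ℝ) :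
    O.P (mkX (vf V ε)) = mkX (fun y => V (ε, y)) := by
  obtain ⟨hQ, -, hQP⟩ := hinj O
  have hVc : Continuous (fun y => V (ε, y)) := hV.continuous.comp (Continuous.prodMk_right ε)
  have hG := (Gop_smooth hV).continuous
  suffices h : O.Q (O.P (mkX (vf V ε)) - mkX (fun y => V (ε, y))) = 0 from
    sub_eq_zero.1 (hQ _ h)
  rw [map_sub, sub_eq_zero]
  refine ext_evX fun x h0 h1 => ?_
  rw [hQP _ x h0 h1, O.Q_ev _ x h0 h1]
  have e1 : ∫ s in (0 : ℝ)..1, (s ^ 2 - s ^ 3) * evX (mkX (vf V ε)) (x * s)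
      = ∫ s in (0 : ℝ)..1, ∫ p in (0 : ℝ)..(Real.pi / 2), 1 / (2 * Real.pi) *
        ((s ^ 2 - s ^ 3) * (Real.sin p ^ 3 * Gop V (ε, x * s * Real.sin p))) := by
    refine int_congr1 fun s hs0 hs1 => ?_
    rw [evX_mkX (vf_cont hV ε) (by positivity) (by nlinarith)]
    unfold vf
    rw [intervalIntegral.integral_const_mul, intervalIntegral.integral_const_mul]
    ring
  rw [e1, intervalIntegral_intervalIntegral_swap]
  · rw [← intervalIntegral.integral_const_mul]
    refine int_congr fun p hp0 hp1 => ?_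
    have hs0 := sin_nonneg' hp0 hp1
    have hs1 := Real.sin_le_one p
    rw [evX_mkX hVc (by positivity) (by nlinarith), ← int_Gop hV ε (x * Real.sin p),
      ← intervalIntegral.integral_const_mul, ← intervalIntegral.integral_const_mul]
    refine int_congr1 fun s _ _ => ?_
    have : x * s * Real.sin p = x * Real.sin p * s := by ring
    rw [this]
    have hpi := Real.pi_ne_zero
    field_simp
  · have hc : Continuous (Function.uncurry fun s p : ℝ => 1 / (2 * Real.pi) *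
        ((s ^ 2 - s ^ 3) * (Real.sin p ^ 3 * Gop V (ε, x * s * Real.sin p)))) := by
      unfold Function.uncurry
      fun_prop
    have hK : IsCompact (uIcc (0 : ℝ) 1 ×ˢ uIcc (0 : ℝ) (Real.pi / 2)) :=
      isCompact_uIcc.prod isCompact_uIcc
    refine (hc.continuousOn.integrableOn_compact hK).mono_set ?_
    exact Set.prod_mono uIoc_subset_uIcc uIoc_subset_uIcc

/-- **UNI-WFN** -/
theorem wfn (hsmo : P_smo) (hlead : P_lead) (hinj : P_inj) : P_wfn := by
  intro O M e₀ η hη hM χ C b₀ f₀ h0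
  obtain ⟨zz, hzz, hzz'⟩ := exists_ext hη.pos (zf_smooth hsmo hη hM)
  have hπ := Real.pi_pos
  set V : ℝ × ℝ → ℝ := fun p =>
    (1 - χ p.2) * (p.2 ^ 2 * zz (p.1 * p.2)) + χ p.2 * (Real.pi / 24) with hVdef
  have hV : ContDiff ℝ ∞ V := by
    have h1 : ContDiff ℝ ∞ (fun p : ℝ × ℝ => χ p.2) := h0.χ_smooth.comp contDiff_snd
    have h2 : ContDiff ℝ ∞ (fun p : ℝ × ℝ => zz (p.1 * p.2)) :=
      hzz.comp (contDiff_fst.mul contDiff_snd)
    exact ((contDiff_const.sub h1).mul ((contDiff_snd.pow 2).mul h2)).add (h1.mul contDiff_const)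
  have hVc : ∀ ε, Continuous (fun y => V (ε, y)) := fun ε =>
    hV.continuous.comp (Continuous.prodMk_right ε)
  obtain ⟨hQ, hPi, hQP⟩ := hinj O
  have hPv : ∀ ε, O.P (mkX (vf V ε)) = mkX (fun y => V (ε, y)) := fun ε => P_vf hinj O hV ε
  have hidX : idX = mkX (fun x => x) := rfl
  refine ⟨vf V, e₀ / 2, by linarith [hη.pos], by linarith [hη.pos], vf_smooth hV, ?_, ?_⟩
  · -- `v 0 = f₀ b₀`
    have hz0 : zz 0 = Real.pi / 24 := by
      rw [hzz' 0 (by simpa using hη.pos), zf_zero hlead hη hM h0]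
    have hfb : Continuous (fun x => f₀ x * b₀ x) :=
      h0.f_smooth.continuous.mul h0.b_smooth.continuous
    have e1 : O.P (mkX (vf V 0)) = O.P (mkX (fun x => f₀ x * b₀ x)) := by
      rw [hPv 0]
      refine ext_evX fun y hy0 hy1 => ?_
      rw [evX_mkX (hVc 0) hy0 hy1, P_ev O _ hy0 hy1]
      have e2 := h0.main y hy0 hy1
      have e3 : ∫ s in (0 : ℝ)..(Real.pi / 2), 4 * Real.sin s ^ 2 * Real.cos s ^ 2 *
          evX (mkX (fun x => f₀ x * b₀ x)) (y * Real.cos s)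
          = 4 * ∫ t in (0 : ℝ)..(Real.pi / 2), Real.sin t ^ 2 * Real.cos t ^ 2 *
          (f₀ (y * Real.cos t) * b₀ (y * Real.cos t)) := by
        rw [← intervalIntegral.integral_const_mul]
        refine int_congr fun t ht0 ht1 => ?_
        have hc1 := Real.cos_le_one t
        have hc := cos_nonneg' ht0 ht1
        rw [evX_mkX hfb (by positivity) (by nlinarith)]
        ring
      rw [e3, e2, h0.C_eq]
      simp only [hVdef, zero_mul, hz0]
      ring
    have e2 : O.P (mkX (vf V 0) - mkX (fun x => f₀ x * b₀ x)) = 0 := by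
      rw [P_sub, e1, sub_self]
    have e3 := sub_eq_zero.1 (hPi _ e2)
    intro x hx0 hx1
    rw [← evX_mkX (vf_cont hV 0) hx0 hx1, e3, evX_mkX hfb hx0 hx1]
  · intro ε hε
    constructor
    · intro y hy0 hy1
      rw [hPv ε, evX_mkX (hVc ε) (by linarith) hy1]
      simp only [hVdef]
      rw [h0.χ_one y hy0]
      ring
    · intro n hn x hx0 hx1
      have hn' : O.P n = That O η (ε, O.lift idX) := hn
      have e1 : O.P (τX (Real.log 4) (n - mkX (vf V ε))) = 0 := by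
        rw [P_τ]
        refine ext_evX fun y hy0 hy1 => ?_
        have hexp : Real.exp (-|Real.log 4|) = 1 / 4 := by
          rw [abs_of_nonneg (Real.log_nonneg (by norm_num)), Real.exp_neg,
            Real.exp_log (by norm_num)]
          norm_num
        rw [evX_τX _ _ hy0 hy1, P_sub, evX_sub, hexp, evX_zero, hn', hPv ε,
          That_idX hsmo hη hM (by linarith [hη.pos]) (by positivity) (by linarith),
          evX_mkX (hVc ε) (by positivity) (by linarith)]
        simp only [hVdef]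
        rw [h0.χ_zero _ (by linarith), hzz' (ε * (1 / 4 * y))]
        · ring
        · rw [abs_mul, abs_of_nonneg (by positivity : (0 : ℝ) ≤ 1 / 4 * y)]
          calc |ε| * (1 / 4 * y) ≤ |ε| * 1 :=
                mul_le_mul_of_nonneg_left (by linarith) (abs_nonneg _)
            _ < e₀ / 2 := by rw [mul_one]; exact hε
      have e2 := hPi _ e1
      have e3 := congrArg (fun g : X => evX g (4 * x)) e2
      have hexp : Real.exp (-|Real.log 4|) = 1 / 4 := by
        rw [abs_of_nonneg (Real.log_nonneg (by norm_num)), Real.exp_neg,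
          Real.exp_log (by norm_num)]
        norm_num
      have e4 : evX (τX (Real.log 4) (n - mkX (vf V ε))) (4 * x) = 0 := e3
      rw [evX_τX _ _ (by positivity) (by linarith), hexp, evX_sub] at e4
      have e5 : 1 / 4 * (4 * x) = x := by ring
      rw [e5, evX_mkX (vf_cont hV ε) hx0 (by linarith)] at e4
      linarith

end

end Pool.Agent.W238.Uni
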